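import Mathlib
import Pool.Agent.J4.H73.EX.Res2
set_option autoImplicit false

/-!
# The extension conjecture for densities that are smooth in one direction, depending on the scale

`ext U f ξ = ∫_U e^{-i Φ(x)·ξ} f(x) dx`, `Φ(x) = (x_1, x_2, x_1² + x_2²)`, `U ⊆ B(0, 1/2)`. For
`q ≥ 4` the extension estimate is the theorem of Tomas and Stein; here `3 < q < 4` is arbitrary.

* A. If for every `k` there is a unit vector `e_k`, WHICH MAY DEPEND ON `k`, such that the zero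
  extension `F` of `f` satisfies `‖F(· + t e_k) - F‖_q ≤ ω_k` for `0 < t ≤ 2^{-k}`, then
  `‖ext U f‖_q ≤ C (‖f‖_q + ∑_k 2^{(2/q - 1/2) k} ω_k)`.
* B. If `s > 2/q - 1/2` and for every `0 < h ≤ 1` there is a direction `e_h` with
  `‖F(· + t e_h) - F‖_q ≤ A h^s` for `0 < t ≤ h`, then `‖ext U f‖_q ≤ C (‖f‖_q + A)`.
  The value `s = 1/6` is admissible for all `q > 3`.
* C. If `σ > 2 - q/2` and for every `0 < h ≤ 1` there is a direction `e_h` in which all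
  translations by at most `h` move the set `F` by at most `B h^σ` in measure, then
  `‖ext F 1‖_q^q ≤ C (|F| + B)`. The value `σ = 1/2` is admissible for all `q > 3`.
-/

namespace Pool.Agent.Results.MP_5ab805_an.OneDirectionPerScale

open MeasureTheory Set Metric Complex
open scoped ENNReal NNReal RealInnerProductSpace

abbrev E (n : ℕ) := EuclideanSpace ℝ (Fin n)

/-- the paraboloid `x ↦ (x_1, x_2, x_1^2 + x_2^2)` -/
noncomputable def Phi (x : E 2) : E 3 := !₂[x 0, x 1, x 0 ^ 2 + x 1 ^ 2]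

/-- the Fourier extension operator of the paraboloid over `U` -/
noncomputable def ext (U : Set (E 2)) (f : E 2 → ℂ) (ξ : E 3) : ℂ :=
  ∫ x in U, Complex.exp (-((⟪Phi x, ξ⟫ : ℝ) : ℂ) * I) * f x

/-- The zero extension of `f` from `U` to the plane changes by at most `B` in `L^q` under every
translation by `t e`, `0 < t ≤ h`. -/
def SmoothAlong (q : ℝ) (U : Set (E 2)) (f : E 2 → ℂ) (e : E 2) (h : ℝ) (B : ℝ≥0∞) : Prop :=
  ∀ t : ℝ, 0 < t → t ≤ h →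
    eLpNorm (fun x => U.indicator f (x + t • e) - U.indicator f x) (ENNReal.ofReal q) volume ≤ B

theorem result (q : ℝ) (hq : 3 < q) (hq4 : q < 4) :
    (∃ C : ℝ≥0, ∀ U : Set (E 2), MeasurableSet U → U ⊆ ball 0 (1 / 2) → ∀ f : E 2 → ℂ,
      AEStronglyMeasurable f (volume.restrict U) → ∀ ω : ℕ → ℝ≥0∞,
      (∀ k : ℕ, ∃ e : E 2, ‖e‖ = 1 ∧ SmoothAlong q U f e (1 / 2 ^ k) (ω k)) →
      eLpNorm (ext U f) (ENNReal.ofReal q) volume ≤
        C * (eLpNorm f (ENNReal.ofReal q) (volume.restrict U) +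
          ∑' k : ℕ, ENNReal.ofReal (2 ^ ((2 / q - 1 / 2) * k)) * ω k)) ∧
    (∀ s : ℝ, 2 / q - 1 / 2 < s → ∃ C : ℝ≥0, ∀ U : Set (E 2), MeasurableSet U →
      U ⊆ ball 0 (1 / 2) → ∀ f : E 2 → ℂ, AEStronglyMeasurable f (volume.restrict U) →
      ∀ A : ℝ≥0∞, (∀ h : ℝ, 0 < h → h ≤ 1 →
        ∃ e : E 2, ‖e‖ = 1 ∧ SmoothAlong q U f e h (A * ENNReal.ofReal (h ^ s))) →
      eLpNorm (ext U f) (ENNReal.ofReal q) volume ≤
        C * (eLpNorm f (ENNReal.ofReal q) (volume.restrict U) + A)) ∧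
    (∀ σ : ℝ, 2 - q / 2 < σ → ∃ C : ℝ≥0, ∀ F : Set (E 2), MeasurableSet F →
      F ⊆ ball 0 (1 / 2) → ∀ B : ℝ≥0∞, (∀ h : ℝ, 0 < h → h ≤ 1 →
        ∃ e : E 2, ‖e‖ = 1 ∧ ∀ t : ℝ, 0 < t → t ≤ h →
          volume (symmDiff F ((fun x => x + t • e) ⁻¹' F)) ≤ B * ENNReal.ofReal (h ^ σ)) →
      ∫⁻ ξ, ‖ext F (fun _ => 1) ξ‖ₑ ^ q ≤ C * (volume F + B)) :=
  ⟨Pool.Agent.J4.H73.EX.main1 q hq hq4, fun s hs => Pool.Agent.J4.H73.EX.main2 q hq hq4 s hs,
    fun σ hσ => Pool.Agent.J4.H73.EX.main3 q hq hq4 σ hσ⟩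

end Pool.Agent.Results.MP_5ab805_an.OneDirectionPerScale
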